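import Mathlib

/-! Covering the four-corner dust of ratio 1/4 by a chain of small boxes whose
times are separated: the combinatorial core of the common hypercyclicity proof. -/

set_option autoImplicit false
set_option linter.dupNamespace false
set_option linter.unusedVariables false
open Filter Topology

namespace Pool.Agent.P.MP_1f345d_an

/-- The point of the linear Cantor set of ratio 1/4 coded by a 0-1 sequence. -/
noncomputable def cs (ε : ℕ → Bool) : ℝ :=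
  ∑' m : ℕ, (if ε m then (3/4 : ℝ) * (1/4 : ℝ) ^ m else 0)

lemma summable_geo : Summable (fun m : ℕ => (3/4 : ℝ) * (1/4 : ℝ) ^ m) :=
  (summable_geometric_of_lt_one (by norm_num) (by norm_num)).mul_left _

lemma term_nonneg (ε : ℕ → Bool) (m : ℕ) :
    0 ≤ (if ε m then (3/4 : ℝ) * (1/4 : ℝ) ^ m else 0) := by
  split_ifs <;> positivity

lemma term_le (ε : ℕ → Bool) (m : ℕ) :
    (if ε m then (3/4 : ℝ) * (1/4 : ℝ) ^ m else 0) ≤ (3/4 : ℝ) * (1/4 : ℝ) ^ m := by
  split_ifs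
  · exact le_rfl
  · positivity

lemma summable_term (ε : ℕ → Bool) :
    Summable (fun m : ℕ => (if ε m then (3/4 : ℝ) * (1/4 : ℝ) ^ m else 0)) :=
  Summable.of_nonneg_of_le (term_nonneg ε) (term_le ε) summable_geo

lemma cs_nonneg (ε : ℕ → Bool) : 0 ≤ cs ε := tsum_nonneg (term_nonneg ε)

lemma cs_le_one (ε : ℕ → Bool) : cs ε ≤ 1 := by
  have h1 : cs ε ≤ ∑' m : ℕ, (3/4 : ℝ) * (1/4 : ℝ) ^ m :=
    (summable_term ε).tsum_le_tsum (term_le ε) summable_geo
  rw [tsum_mul_left, tsum_geometric_of_lt_one (by norm_num) (by norm_num)] at h1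
  norm_num at h1
  exact h1

lemma cs_succ (ε : ℕ → Bool) :
    cs ε = (if ε 0 then (3/4 : ℝ) else 0) + (1/4 : ℝ) * cs (fun m => ε (m + 1)) := by
  unfold cs
  rw [(summable_term ε).tsum_eq_zero_add, ← tsum_mul_left]
  congr 1
  · simp
  · congr 1
    ext m
    split_ifs
    · ring
    · ring

/-- The dust built on the square with lower left corner `(p, q)` and side `l`. -/
def dust (p q l : ℝ) : Set (ℝ × ℝ) :=
  {z | ∃ ε δ : ℕ → Bool, z.1 = p + l * cs ε ∧ z.2 = q + l * cs δ}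

lemma dust_subset (p q l : ℝ) :
    dust p q (4 * l) ⊆
      ((dust p q l ∪ dust (p + 3 * l) q l) ∪ dust p (q + 3 * l) l) ∪
        dust (p + 3 * l) (q + 3 * l) l := by
  rintro z ⟨ε, δ, h1, h2⟩
  rw [cs_succ ε] at h1
  rw [cs_succ δ] at h2
  cases hε : ε 0 <;> cases hδ : δ 0 <;> simp only [hε, hδ] at h1 h2
  · left; left; left
    exact ⟨fun m => ε (m + 1), fun m => δ (m + 1), by rw [h1]; simp; ring, by rw [h2]; simp; ring⟩
  · left; right
    exact ⟨fun m => ε (m + 1), fun m => δ (m + 1), by rw [h1]; simp; ring, by rw [h2]; simp; ring⟩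
  · left; left; right
    exact ⟨fun m => ε (m + 1), fun m => δ (m + 1), by rw [h1]; simp; ring, by rw [h2]; simp; ring⟩
  · right
    exact ⟨fun m => ε (m + 1), fun m => δ (m + 1), by rw [h1]; simp; ring, by rw [h2]; simp; ring⟩

lemma dust_close {p q l : ℝ} (hl : 0 ≤ l) {z : ℝ × ℝ} (hz : z ∈ dust p q l) :
    |z.1 - p| ≤ l ∧ |z.2 - q| ≤ l := by
  obtain ⟨ε, δ, h1, h2⟩ := hz
  have a1 := cs_nonneg ε
  have a2 := cs_le_one ε
  have a3 := cs_nonneg δ
  have a4 := cs_le_one δ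
  rw [h1, h2]
  constructor
  · rw [abs_le]; constructor <;> nlinarith
  · rw [abs_le]; constructor <;> nlinarith

/-- States: a real time and a point of the plane. -/
abbrev St := ℝ × ℝ × ℝ

/-- Weak order between states. -/
def Le (s t : St) : Prop :=
  s.1 ≤ t.1 ∧ s.1 * s.2.1 ≤ t.1 * t.2.1 ∧ s.1 * s.2.2 ≤ t.1 * t.2.2

/-- Strong order between states, with gap `G`. -/
def Lt (G : ℝ) (s t : St) : Prop :=
  s.1 + G ≤ t.1 ∧ s.1 * s.2.1 + G ≤ t.1 * t.2.1 ∧ s.1 * s.2.2 + G ≤ t.1 * t.2.2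

lemma Le.refl (s : St) : Le s s := ⟨le_rfl, le_rfl, le_rfl⟩

lemma Le.trans {s t u : St} (h1 : Le s t) (h2 : Le t u) : Le s u :=
  ⟨h1.1.trans h2.1, h1.2.1.trans h2.2.1, h1.2.2.trans h2.2.2⟩

lemma Lt.trans_le {G : ℝ} {s t u : St} (h1 : Lt G s t) (h2 : Le t u) : Lt G s u :=
  ⟨h1.1.trans h2.1, h1.2.1.trans h2.2.1, h1.2.2.trans h2.2.2⟩

/-- The state attached to a natural time and a point. -/
def st (t : ℕ × ℝ × ℝ) : St := ((t.1 : ℝ), t.2)

/-- The set `S` is covered by boxes of a chain that starts after `s` and ends before `e`. -/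
def Cov (G τ : ℝ) (S : Set (ℝ × ℝ)) (s e : St) : Prop :=
  Le s e ∧ ∃ T : Set (ℕ × ℝ × ℝ),
    (∀ t ∈ T, ∀ t' ∈ T, t = t' ∨ Lt G (st t) (st t') ∨ Lt G (st t') (st t)) ∧
    (∀ t ∈ T, Le s (st t) ∧ Lt G (st t) e) ∧
    ∀ z ∈ S, ∃ t ∈ T, (t.1 : ℝ) * |z.1 - t.2.1| ≤ τ ∧ (t.1 : ℝ) * |z.2 - t.2.2| ≤ τ

lemma Cov.mono {G τ : ℝ} {S S' : Set (ℝ × ℝ)} {s s' e e' : St} (h : Cov G τ S s e)
    (hS : S' ⊆ S) (hs : Le s' s) (he : Le e e') : Cov G τ S' s' e' := by
  obtain ⟨h0, T, h1, h2, h3⟩ := h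
  exact ⟨(hs.trans h0).trans he, T, h1,
    fun t ht => ⟨hs.trans (h2 t ht).1, (h2 t ht).2.trans_le he⟩, fun z hz => h3 z (hS hz)⟩

lemma Cov.union {G τ : ℝ} (hG : 0 ≤ G) {S S' : Set (ℝ × ℝ)} {s m e : St} (h : Cov G τ S s m)
    (h' : Cov G τ S' m e) : Cov G τ (S ∪ S') s e := by
  obtain ⟨h0, T, h1, h2, h3⟩ := h
  obtain ⟨k0, T', k1, k2, k3⟩ := h'
  refine ⟨h0.trans k0, T ∪ T', ?_, ?_, ?_⟩
  · rintro t (ht | ht) t' (ht' | ht')
    · exact h1 t ht t' ht'
    · exact Or.inr (Or.inl ((h2 t ht).2.trans_le (k2 t' ht').1))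
    · exact Or.inr (Or.inr ((h2 t' ht').2.trans_le (k2 t ht).1))
    · exact k1 t ht t' ht'
  · rintro t (ht | ht)
    · exact ⟨(h2 t ht).1, (h2 t ht).2.trans_le k0⟩
    · exact ⟨h0.trans (k2 t ht).1, (k2 t ht).2⟩
  · rintro z (hz | hz)
    · obtain ⟨t, ht, h⟩ := h3 z hz
      exact ⟨t, Or.inl ht, h⟩
    · obtain ⟨t, ht, h⟩ := k3 z hz
      exact ⟨t, Or.inr ht, h⟩

lemma le_time {n n' p q : ℝ} (h : n ≤ n') (hp : 0 ≤ p) (hq : 0 ≤ q) :
    Le (n, p, q) (n', p, q) :=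
  ⟨h, mul_le_mul_of_nonneg_right h hp, mul_le_mul_of_nonneg_right h hq⟩

lemma mul_move {a n p p' l : ℝ} (ha : 0 < a) (hn : 0 ≤ n) (hp' : a ≤ p') (hl : 0 ≤ l)
    (h : |p - p'| ≤ l) : n * p ≤ n * Real.exp (l / a) * p' := by
  have h1 : p ≤ p' + l := by have := (abs_le.1 h).2; linarith
  have h2 : l / a + 1 ≤ Real.exp (l / a) := Real.add_one_le_exp _
  have h3 : l ≤ l / a * p' := by
    rw [div_mul_eq_mul_div, le_div_iff₀ ha]
    exact mul_le_mul_of_nonneg_left hp' hl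
  have h4 : (l / a + 1) * p' ≤ Real.exp (l / a) * p' :=
    mul_le_mul_of_nonneg_right h2 (by linarith)
  have h5 : p ≤ Real.exp (l / a) * p' := by nlinarith
  calc n * p ≤ n * (Real.exp (l / a) * p') := mul_le_mul_of_nonneg_left h5 hn
    _ = _ := by ring

lemma le_move {a n p q p' q' l : ℝ} (ha : 0 < a) (hn : 0 ≤ n) (hp' : a ≤ p') (hq' : a ≤ q')
    (hl : 0 ≤ l) (h1 : |p - p'| ≤ l) (h2 : |q - q'| ≤ l) :
    Le (n, p, q) (n * Real.exp (l / a), p', q') := by
  refine ⟨?_, mul_move ha hn hp' hl h1, mul_move ha hn hq' hl h2⟩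
  have : 1 ≤ Real.exp (l / a) := Real.one_le_exp (by positivity)
  simp only
  nlinarith

/-- Covering with affine control of the end time, in the time scale `φ`. -/
def P (G τ : ℝ) (φ : ℝ → ℝ) (B : ℝ) (S : Set (ℝ × ℝ)) (p q α β : ℝ) : Prop :=
  ∀ m : ℝ, 0 ≤ m → Real.exp α * (m + β) ≤ B →
    Cov G τ S (φ m, p, q) (φ (Real.exp α * (m + β)), p, q)

lemma P.union {G τ : ℝ} (hG : 0 ≤ G) {φ : ℝ → ℝ} (hφ : Monotone φ) {B : ℝ}
    {S S' : Set (ℝ × ℝ)} {p q α β α' β' : ℝ} (hp : 0 ≤ p) (hq : 0 ≤ q)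
    (hα : 0 ≤ α) (hβ : 0 ≤ β) (hα' : 0 ≤ α') (hβ' : 0 ≤ β')
    (h : P G τ φ B S p q α β) (h' : P G τ φ B S' p q α' β') :
    P G τ φ B (S ∪ S') p q (α + α') (β + β') := by
  intro m hm hB
  have e1 : 1 ≤ Real.exp α := Real.one_le_exp hα
  have e2 : 1 ≤ Real.exp α' := Real.one_le_exp hα'
  have k0 : 0 ≤ Real.exp α * (m + β) := by positivity
  have k1 : Real.exp α' * (Real.exp α * (m + β) + β') ≤
      Real.exp (α + α') * (m + (β + β')) := by
    rw [Real.exp_add]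
    have : β' ≤ Real.exp α * β' := by nlinarith
    nlinarith
  have k2 : Real.exp α * (m + β) ≤ Real.exp α' * (Real.exp α * (m + β) + β') := by nlinarith
  have c1 := h m hm (k2.trans (k1.trans hB))
  have c2 := h' _ k0 (k1.trans hB)
  exact (c1.union hG c2).mono subset_rfl (Le.refl _) (le_time (hφ k1) hp hq)

lemma P.subset {G τ : ℝ} {φ : ℝ → ℝ} {B : ℝ} {S S' : Set (ℝ × ℝ)} {p q α β : ℝ}
    (h : P G τ φ B S p q α β) (hS : S' ⊆ S) : P G τ φ B S' p q α β :=
  fun m hm hB => (h m hm hB).mono hS (Le.refl _) (Le.refl _)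

/-- Moving the base point, linear time scale. -/
lemma P.move_id {G τ a B : ℝ} (ha : 0 < a) {S : Set (ℝ × ℝ)} {p q p' q' α β l : ℝ}
    (hp : a ≤ p) (hq : a ≤ q) (hp' : a ≤ p') (hq' : a ≤ q') (hl : 0 ≤ l)
    (h1 : |p - p'| ≤ l) (h2 : |q - q'| ≤ l) (hβ : 0 ≤ β)
    (h : P G τ id B S p' q' α β) : P G τ id B S p q (α + 2 / a * l) (β + 0 * l) := by
  intro m hm hB
  have e1 : 1 ≤ Real.exp (l / a) := Real.one_le_exp (by positivity)
  have e0 : 0 < Real.exp α := Real.exp_pos _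
  have he : Real.exp (α + 2 / a * l) = Real.exp α * Real.exp (l / a) * Real.exp (l / a) := by
    rw [← Real.exp_add, ← Real.exp_add]; congr 1; ring
  have k0 : 0 ≤ m * Real.exp (l / a) := by positivity
  have k00 : 0 ≤ Real.exp α * (m * Real.exp (l / a) + β) := by positivity
  have k1 : Real.exp α * (m * Real.exp (l / a) + β) * Real.exp (l / a) ≤
      Real.exp (α + 2 / a * l) * (m + (β + 0 * l)) := by
    rw [he]
    have : β ≤ Real.exp (l / a) * β := by nlinarith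
    have h3 : Real.exp α * Real.exp (l / a) * β ≤
        Real.exp α * Real.exp (l / a) * (Real.exp (l / a) * β) :=
      mul_le_mul_of_nonneg_left this (by positivity)
    nlinarith
  have k2 : Real.exp α * (m * Real.exp (l / a) + β) ≤
      Real.exp α * (m * Real.exp (l / a) + β) * Real.exp (l / a) := by nlinarith
  have c := h _ k0 (k2.trans (k1.trans hB))
  refine c.mono subset_rfl (le_move ha hm hp' hq' hl h1 h2) ?_
  refine (le_move ha k00 hp hq hl (by rwa [abs_sub_comm]) (by rwa [abs_sub_comm])).trans ?_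
  exact le_time k1 (by linarith) (by linarith)

/-- Moving the base point, exponential time scale. -/
lemma P.move_exp {G τ a B w : ℝ} (ha : 0 < a) (hw : 0 ≤ w) {S : Set (ℝ × ℝ)}
    {p q p' q' α β l : ℝ}
    (hp : a ≤ p) (hq : a ≤ q) (hp' : a ≤ p') (hq' : a ≤ q') (hl : 0 ≤ l)
    (h1 : |p - p'| ≤ l) (h2 : |q - q'| ≤ l) (hα : 0 ≤ α)
    (h : P G τ (fun m => w * Real.exp m) B S p' q' α β) :
    P G τ (fun m => w * Real.exp m) B S p q (α + 0 * l) (β + 2 / a * l) := by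
  intro m hm hB
  have e1 : 1 ≤ Real.exp α := Real.one_le_exp hα
  have hla : 0 ≤ l / a := by positivity
  have k0 : 0 ≤ m + l / a := by positivity
  have k1 : Real.exp α * (m + l / a + β) + l / a ≤
      Real.exp (α + 0 * l) * (m + (β + 2 / a * l)) := by
    have : 2 / a * l = l / a + l / a := by ring
    rw [zero_mul, add_zero, this]
    nlinarith
  have c := h _ k0 (by linarith)
  refine c.mono subset_rfl ?_ ?_
  · have := le_move (n := w * Real.exp m) ha (by positivity) hp' hq' hl h1 h2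
    simpa only [Real.exp_add, mul_assoc] using this
  · refine (le_move ha (by positivity) hp hq hl (by rwa [abs_sub_comm])
      (by rwa [abs_sub_comm])).trans ?_
    refine le_time ?_ (by linarith) (by linarith)
    rw [mul_assoc, ← Real.exp_add]
    exact mul_le_mul_of_nonneg_left (Real.exp_le_exp.2 k1) hw

/-- The self-similar induction. -/
lemma P.iterate {G τ a B u v l α β : ℝ} (hG : 0 ≤ G) (ha : 0 < a) {φ : ℝ → ℝ}
    (hφ : Monotone φ) (hu : 0 ≤ u) (hv : 0 ≤ v) (hl : 0 ≤ l) (hα : 0 ≤ α) (hβ : 0 ≤ β)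
    (hmove : ∀ (S : Set (ℝ × ℝ)) (p q p' q' α β l : ℝ), a ≤ p → a ≤ q → a ≤ p' → a ≤ q' →
      0 ≤ l → |p - p'| ≤ l → |q - q'| ≤ l → 0 ≤ α → 0 ≤ β → P G τ φ B S p' q' α β →
      P G τ φ B S p q (α + u * l) (β + v * l))
    (hbase : ∀ p q, a ≤ p → a ≤ q → P G τ φ B (dust p q l) p q α β) (j : ℕ) :
    ∀ p q, a ≤ p → a ≤ q →
      P G τ φ B (dust p q (4 ^ j * l)) p q (4 ^ j * (α + 4 * j * u * l))
        (4 ^ j * (β + 4 * j * v * l)) := by
  induction j with
  | zero => intro p q hp hq; simpa using hbase p q hp hq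
  | succ j ih =>
    intro p q hp hq
    set L : ℝ := 4 ^ j * l with hL
    have hL0 : 0 ≤ L := by positivity
    set A : ℝ := 4 ^ j * (α + 4 * j * u * l) with hA
    set C : ℝ := 4 ^ j * (β + 4 * j * v * l) with hC
    have hA0 : 0 ≤ A := by positivity
    have hC0 : 0 ≤ C := by positivity
    have d0 : ∀ x : ℝ, |x - x| ≤ 4 * L := fun x => by simp; positivity
    have d1 : ∀ x : ℝ, |x - (x + 3 * L)| ≤ 4 * L := fun x => by
      rw [abs_le]; constructor <;> linarith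
    have hp3 : a ≤ p + 3 * L := by linarith
    have hq3 : a ≤ q + 3 * L := by linarith
    have h4L : 0 ≤ 4 * L := by positivity
    have c1 := hmove _ p q p q A C (4 * L) hp hq hp hq h4L (d0 p) (d0 q) hA0 hC0 (ih p q hp hq)
    have c2 := hmove _ p q (p + 3 * L) q A C (4 * L) hp hq hp3 hq h4L (d1 p) (d0 q) hA0 hC0
      (ih _ _ hp3 hq)
    have c3 := hmove _ p q p (q + 3 * L) A C (4 * L) hp hq hp hq3 h4L (d0 p) (d1 q) hA0 hC0
      (ih _ _ hp hq3)
    have c4 := hmove _ p q (p + 3 * L) (q + 3 * L) A C (4 * L) hp hq hp3 hq3 h4L (d1 p) (d1 q)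
      hA0 hC0 (ih _ _ hp3 hq3)
    have hp0 : 0 ≤ p := by linarith
    have hq0 : 0 ≤ q := by linarith
    have hA1 : 0 ≤ A + u * (4 * L) := by positivity
    have hC1 : 0 ≤ C + v * (4 * L) := by positivity
    have c12 := c1.union hG hφ hp0 hq0 hA1 hC1 hA1 hC1 c2
    have c123 := c12.union hG hφ hp0 hq0 (by positivity) (by positivity) hA1 hC1 c3
    have c1234 := c123.union hG hφ hp0 hq0 (by positivity) (by positivity) hA1 hC1 c4
    have := c1234.subset (dust_subset p q L)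
    convert this using 1
    · congr 1; rw [hL]; ring
    · rw [hA, hL]; push_cast; ring
    · rw [hC, hL]; push_cast; ring

/-- One box covers a small dust. -/
lemma P.base {G τ a B l : ℝ} (hG : 0 ≤ G) (ha : 0 < a) (hl : 0 ≤ l) (hB : B * l ≤ τ)
    (p q : ℝ) (hp : a ≤ p) (hq : a ≤ q) :
    P G τ id B (dust p q l) p q 0 (1 + G + G / a) := by
  intro m hm hmB
  have hp0 : 0 ≤ p := by linarith
  have hq0 : 0 ≤ q := by linarith
  have hGa : 0 ≤ G / a := by positivity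
  simp only [Real.exp_zero, one_mul, id] at hmB ⊢
  have c1 : m ≤ (⌈m⌉₊ : ℝ) := Nat.le_ceil m
  have c2 : (⌈m⌉₊ : ℝ) < m + 1 := Nat.ceil_lt_add_one hm
  have key : ∀ x : ℝ, a ≤ x → (⌈m⌉₊ : ℝ) * x + G ≤ (m + (1 + G + G / a)) * x := by
    intro x hx
    have h3 : G ≤ G / a * x := by
      rw [div_mul_eq_mul_div, le_div_iff₀ ha]
      exact mul_le_mul_of_nonneg_left hx hG
    have hx0 : 0 ≤ x := by linarith
    have h4 : (⌈m⌉₊ : ℝ) * x ≤ (m + 1) * x := mul_le_mul_of_nonneg_right c2.le hx0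
    have h5 : 0 ≤ G * x := by positivity
    nlinarith
  refine ⟨le_time (by linarith) hp0 hq0, {(⌈m⌉₊, p, q)}, ?_, ?_, ?_⟩
  · rintro t rfl t' rfl
    exact Or.inl rfl
  · rintro t rfl
    refine ⟨le_time c1 hp0 hq0, ?_, key p hp, key q hq⟩
    simp only [st]
    linarith
  · intro z hz
    obtain ⟨z1, z2⟩ := dust_close hl hz
    have c3 : (⌈m⌉₊ : ℝ) ≤ B := by linarith
    have c0 : (0 : ℝ) ≤ (⌈m⌉₊ : ℝ) := Nat.cast_nonneg _
    refine ⟨_, rfl, ?_, ?_⟩
    · calc (⌈m⌉₊ : ℝ) * |z.1 - p| ≤ B * l := mul_le_mul c3 z1 (abs_nonneg _) (by linarith)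
        _ ≤ τ := hB
    · calc (⌈m⌉₊ : ℝ) * |z.2 - q| ≤ B * l := mul_le_mul c3 z2 (abs_nonneg _) (by linarith)
        _ ≤ τ := hB

/-- Uniform resolution `d` inside one square. -/
lemma P.uniform {G τ a l : ℝ} (hG : 0 ≤ G) (ha : 0 < a) (hl : 0 < l) (d : ℕ)
    (p q : ℝ) (hp : a ≤ p) (hq : a ≤ q) :
    P G τ id (τ / l * 4 ^ d) (dust p q l) p q (8 * l / a * d) (4 ^ d * (1 + G + G / a)) := by
  have h4 : (0 : ℝ) < 4 ^ d := by positivity
  have := P.iterate (G := G) (τ := τ) (a := a) (B := τ / l * 4 ^ d) (u := 2 / a) (v := 0)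
    (l := l / 4 ^ d) (α := 0) (β := 1 + G + G / a) hG ha (φ := id) monotone_id (by positivity)
    le_rfl (by positivity) le_rfl (by positivity)
    (fun S p q p' q' α β l hp hq hp' hq' hl h1 h2 _ hβ h =>
      P.move_id ha hp hq hp' hq' hl h1 h2 hβ h)
    (fun p q hp hq => P.base hG ha (by positivity) (by field_simp; exact le_rfl) p q hp hq)
    d p q hp hq
  convert this using 1
  · congr 1; field_simp
  · field_simp; ring
  · ring

/-- One level-`r` square in the exponential time scale. -/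
lemma P.square {G τ a l B : ℝ} (hG : 0 ≤ G) (hτ : 0 < τ) (ha : 0 < a) (hl : 0 < l)
    (hγ : 8 * l / a ≤ 1 / 2)
    (hB : 2 * (Real.exp (8 * l / a * B) * (1 + G + G / a)) ≤ τ / l)
    (p q : ℝ) (hp : a ≤ p) (hq : a ≤ q) :
    P G τ (fun m => τ / l * Real.exp m) B (dust p q l) p q (2 * (8 * l / a)) 3 := by
  intro m hm hmB
  set γ : ℝ := 8 * l / a with hγdef
  set K : ℝ := 1 + G + G / a with hK
  set w : ℝ := τ / l with hw
  have hγ0 : 0 < γ := by positivity
  have hK0 : 0 ≤ K := by positivity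
  have hw0 : 0 < w := by positivity
  set L : ℝ := Real.log 4 with hL
  have hexpL : Real.exp L = 4 := Real.exp_log (by norm_num)
  have hL1 : 1 ≤ L := by
    rw [← Real.exp_le_exp, hexpL]
    have := Real.exp_one_lt_d9
    linarith
  have hL2 : L ≤ 2 := by
    rw [← Real.exp_le_exp, hexpL]
    have h1 : (1 : ℝ) + 1 ≤ Real.exp 1 := Real.add_one_le_exp 1
    have h2 : Real.exp 2 = Real.exp 1 * Real.exp 1 := by rw [← Real.exp_add]; norm_num
    nlinarith
  have hLγ : 0 < L - γ := by linarith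
  set d : ℕ := ⌈(m + 1) / (L - γ)⌉₊ with hd
  have c1 : (m + 1) / (L - γ) ≤ (d : ℝ) := Nat.le_ceil _
  have c2 : (d : ℝ) < (m + 1) / (L - γ) + 1 := Nat.ceil_lt_add_one (by positivity)
  have h4d : (4 : ℝ) ^ d = Real.exp (d * L) := by rw [Real.exp_nat_mul, hexpL]
  have c3 : m + 1 ≤ d * (L - γ) := by rwa [div_le_iff₀ hLγ] at c1
  have c4 : (d : ℝ) * (L - γ) ≤ m + 3 := by
    have : (d : ℝ) * (L - γ) ≤ ((m + 1) / (L - γ) + 1) * (L - γ) :=
      mul_le_mul_of_nonneg_right c2.le hLγ.le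
    have e : ((m + 1) / (L - γ) + 1) * (L - γ) = m + 1 + (L - γ) := by field_simp
    linarith
  have hd0 : (0 : ℝ) ≤ d := Nat.cast_nonneg _
  have c5 : (d : ℝ) * L ≤ Real.exp (2 * γ) * (m + 3) := by
    have e1 : 2 * γ + 1 ≤ Real.exp (2 * γ) := Real.add_one_le_exp _
    have e2 : L ≤ (2 * γ + 1) * (L - γ) := by nlinarith
    calc (d : ℝ) * L ≤ d * ((2 * γ + 1) * (L - γ)) := mul_le_mul_of_nonneg_left e2 hd0
      _ = (2 * γ + 1) * (d * (L - γ)) := by ring
      _ ≤ Real.exp (2 * γ) * (m + 3) :=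
        mul_le_mul e1 c4 (by positivity) (Real.exp_pos _).le
  have c6 : (d : ℝ) ≤ B := by nlinarith
  have key : Real.exp (γ * d) * (w * Real.exp m + 4 ^ d * K) ≤ w * 4 ^ d := by
    have t1 : 2 * (Real.exp (γ * d) * Real.exp m) ≤ 4 ^ d := by
      rw [h4d, ← Real.exp_add]
      have h1 : (1 : ℝ) + 1 ≤ Real.exp 1 := Real.add_one_le_exp 1
      calc 2 * Real.exp (γ * d + m) ≤ Real.exp 1 * Real.exp (γ * d + m) :=
            mul_le_mul_of_nonneg_right (by linarith) (Real.exp_pos _).le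
        _ = Real.exp (1 + (γ * d + m)) := by rw [← Real.exp_add]
        _ ≤ Real.exp (d * L) := Real.exp_le_exp.2 (by nlinarith)
    have t2 : 2 * (Real.exp (γ * d) * K) ≤ w := by
      have : Real.exp (γ * d) ≤ Real.exp (γ * B) :=
        Real.exp_le_exp.2 (mul_le_mul_of_nonneg_left c6 hγ0.le)
      have := mul_le_mul_of_nonneg_right this hK0
      linarith
    have h4 : (0 : ℝ) < 4 ^ d := by positivity
    have t3 := mul_le_mul_of_nonneg_left t1 hw0.le
    have t4 := mul_le_mul_of_nonneg_left t2 h4.le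
    nlinarith
  have c := P.uniform (τ := τ) hG ha hl d p q hp hq (w * Real.exp m) (by positivity) key
  refine c.mono subset_rfl (Le.refl _) (le_time ?_ (by linarith) (by linarith))
  refine key.trans ?_
  rw [h4d]
  exact mul_le_mul_of_nonneg_left (Real.exp_le_exp.2 c5) hw0.le

/-- The covering lemma. -/
theorem exists_cov {G τ a h : ℝ} (hG : 0 ≤ G) (hτ : 0 < τ) (ha : 0 < a) (hh : 0 < h)
    (p q : ℝ) (hp : a ≤ p) (hq : a ≤ q) (n : ℝ) :
    ∃ n' : ℝ, Cov G τ (dust p q h) (n, p, q) (n', p, q) := by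
  set K : ℝ := 1 + G + G / a with hK
  set A : ℝ := 8 * h / a * (Real.exp (16 * h / a) * (3 + 8 * h / a)) with hA
  obtain ⟨r, hr⟩ := pow_unbounded_of_one_lt
    (max (max (16 * h / a) (2 * (Real.exp A * K) * h / τ)) (n * h / τ)) (by norm_num : (1 : ℝ) < 4)
  have r1 : 16 * h / a ≤ 4 ^ r := ((le_max_left _ _).trans (le_max_left _ _)).trans hr.le
  have r2 : 2 * (Real.exp A * K) * h / τ ≤ 4 ^ r :=
    ((le_max_right _ _).trans (le_max_left _ _)).trans hr.le
  have r3 : n * h / τ ≤ 4 ^ r := (le_max_right _ _).trans hr.le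
  have h4 : (0 : ℝ) < 4 ^ r := by positivity
  have r4 : (r : ℝ) ≤ 4 ^ r := by
    have : r < 4 ^ r := Nat.lt_pow_self (by norm_num)
    exact_mod_cast this.le
  set l : ℝ := h / 4 ^ r with hl
  have hl0 : 0 < l := by positivity
  have hlh : 4 ^ r * l = h := by rw [hl]; field_simp
  have hwl : τ / l = τ * 4 ^ r / h := by rw [hl]; field_simp
  set B : ℝ := 4 ^ r * (Real.exp (16 * h / a) * (3 + 8 * h / a)) with hB
  have hγ : 8 * l / a ≤ 1 / 2 := by
    rw [hl, div_le_iff₀ ha]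
    rw [div_le_iff₀ ha] at r1
    have : 8 * (h / 4 ^ r) = 8 * h / 4 ^ r := by ring
    rw [this, div_le_iff₀ h4]
    linarith
  have hBA : 8 * l / a * B = A := by rw [hB, hA, ← hlh]; ring
  have hB2 : 2 * (Real.exp (8 * l / a * B) * (1 + G + G / a)) ≤ τ / l := by
    rw [hBA, hwl, le_div_iff₀ hh]
    rw [div_le_iff₀ hτ] at r2
    linarith
  have hw0 : 0 ≤ τ / l := by positivity
  have it := P.iterate (G := G) (τ := τ) (a := a) (B := B) (u := 0) (v := 2 / a)
    (l := l) (α := 2 * (8 * l / a)) (β := 3) hG ha (φ := fun m => τ / l * Real.exp m)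
    (fun x y hxy => mul_le_mul_of_nonneg_left (Real.exp_le_exp.2 hxy) hw0)
    le_rfl (by positivity) hl0.le (by positivity) (by norm_num)
    (fun S p q p' q' α β l hp hq hp' hq' hl h1 h2 hα _ h =>
      P.move_exp ha hw0 hp hq hp' hq' hl h1 h2 hα h)
    (fun p q hp hq => P.square hG hτ ha hl0 hγ hB2 p q hp hq) r p q hp hq
  rw [hlh] at it
  have e1 : (4 : ℝ) ^ r * (2 * (8 * l / a) + 4 * r * 0 * l) = 16 * h / a := by
    rw [← hlh]; ring
  rw [e1] at it
  have e2 : 4 * (r : ℝ) * (2 / a) * l ≤ 8 * h / a := by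
    have : 4 * (r : ℝ) * (2 / a) * l = 8 * (r * l) / a := by ring
    rw [this]
    have : (r : ℝ) * l ≤ h := by rw [← hlh]; exact mul_le_mul_of_nonneg_right r4 hl0.le
    gcongr
  have c := it 0 le_rfl (by
    rw [hB, zero_add]
    have := Real.exp_pos (16 * h / a)
    calc Real.exp (16 * h / a) * (4 ^ r * (3 + 4 * (r : ℝ) * (2 / a) * l))
        ≤ Real.exp (16 * h / a) * (4 ^ r * (3 + 8 * h / a)) := by gcongr
      _ = _ := by ring)
  refine ⟨_, c.mono subset_rfl (le_time ?_ (by linarith) (by linarith)) (Le.refl _)⟩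
  simp only [Real.exp_zero, mul_one]
  rw [hwl, le_div_iff₀ hh]
  rw [div_le_iff₀ hτ] at r3
  linarith

end Pool.Agent.P.MP_1f345d_an
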