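import Mathlib
import Pool.Agent.P.MP_1f345d_an.Cover

/-! Common hypercyclic vectors for products of Rolewicz operators over the four-corner dust of
ratio 1/4: the Baire category argument. -/

set_option autoImplicit false
set_option linter.dupNamespace false
set_option linter.unusedVariables false
open Filter Topology
open scoped ZeroAtInfty

namespace Pool.Agent.P.MP_1f345d_an

open Classical in
/-- The sequence made of scaled copies of `u` placed at the times of the chain. -/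
noncomputable def blk (T : Set (ℕ × ℝ × ℝ)) (c : ℕ × ℝ × ℝ → ℝ) (u : ℕ → ℂ) (N n : ℕ) : ℂ :=
  if h : ∃ t ∈ T, t.1 ≤ n ∧ n < t.1 + N then
    ((Real.exp (-((h.choose.1 : ℝ) * c h.choose)) : ℝ) : ℂ) * u (n - h.choose.1)
  else 0

section

variable {T : Set (ℕ × ℝ × ℝ)} {c : ℕ × ℝ × ℝ → ℝ} {u : ℕ → ℂ} {N : ℕ} {G : ℝ}

lemma blk_cases (n : ℕ) :
    (blk T c u N n = 0 ∧ ∀ t ∈ T, ¬ (t.1 ≤ n ∧ n < t.1 + N)) ∨
    ∃ t ∈ T, t.1 ≤ n ∧ n < t.1 + N ∧
      blk T c u N n = ((Real.exp (-((t.1 : ℝ) * c t)) : ℝ) : ℂ) * u (n - t.1) := by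
  unfold blk
  split_ifs with h
  · right
    exact ⟨h.choose, h.choose_spec.1, h.choose_spec.2.1, h.choose_spec.2.2, rfl⟩
  · left
    exact ⟨rfl, fun t ht h' => h ⟨t, ht, h'⟩⟩

lemma blk_norm_le {R D : ℝ} (hR : ∀ n, ‖u n‖ ≤ R) (hD : ∀ t ∈ T, D ≤ (t.1 : ℝ) * c t) (n : ℕ) :
    ‖blk T c u N n‖ ≤ Real.exp (-D) * R := by
  have hR0 : 0 ≤ R := (norm_nonneg _).trans (hR 0)
  rcases blk_cases (T := T) (c := c) (u := u) (N := N) n with ⟨h, -⟩ | ⟨t, ht, -, -, h⟩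
  · rw [h, norm_zero]; positivity
  · rw [h, norm_mul, Complex.norm_real, Real.norm_eq_abs, abs_of_pos (Real.exp_pos _)]
    exact mul_le_mul (Real.exp_le_exp.2 (by linarith [hD t ht])) (hR _) (norm_nonneg _)
      (Real.exp_pos _).le

lemma blk_eq_zero {M : ℕ} (hM : ∀ t ∈ T, t.1 ≤ M) {n : ℕ} (hn : M + N ≤ n) :
    blk T c u N n = 0 := by
  rcases blk_cases (T := T) (c := c) (u := u) (N := N) n with ⟨h, -⟩ | ⟨t, ht, -, h, -⟩
  · exact h
  · have := hM t ht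
    omega

lemma blk_approx {R τ η : ℝ} (hN : (N : ℝ) ≤ G)
    (hT : ∀ t ∈ T, ∀ t' ∈ T, t = t' ∨
      ((t.1 : ℝ) + G ≤ t'.1 ∧ (t.1 : ℝ) * c t + G ≤ (t'.1 : ℝ) * c t') ∨
      ((t'.1 : ℝ) + G ≤ t.1 ∧ (t'.1 : ℝ) * c t' + G ≤ (t.1 : ℝ) * c t))
    (hR : ∀ n, ‖u n‖ ≤ R) (hu : ∀ n, N ≤ n → u n = 0)
    (hτ : τ ≤ 1) (h1 : 2 * τ * R ≤ η) (h2 : Real.exp (τ - G) * R ≤ η)
    {t : ℕ × ℝ × ℝ} (ht : t ∈ T) {lam : ℝ} (hlam : (t.1 : ℝ) * |lam - c t| ≤ τ) (n : ℕ) :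
    ‖((Real.exp ((t.1 : ℝ) * lam) : ℝ) : ℂ) * blk T c u N (n + t.1) - u n‖ ≤ η := by
  have hR0 : 0 ≤ R := (norm_nonneg _).trans (hR 0)
  have hη : 0 ≤ η := le_trans (by positivity) h2
  have habs : |(t.1 : ℝ) * lam - (t.1 : ℝ) * c t| ≤ τ := by
    rw [← mul_sub, abs_mul, Nat.abs_cast]; exact hlam
  rcases blk_cases (T := T) (c := c) (u := u) (N := N) (n + t.1) with
    ⟨h, h'⟩ | ⟨s, hs, hs1, hs2, h⟩
  · have : N ≤ n := by
      by_contra hh
      exact h' t ht ⟨by omega, by omega⟩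
    rw [h, hu n this]
    simpa using hη
  · rw [h]
    rcases hT t ht s hs with rfl | ⟨k1, k2⟩ | ⟨k1, k2⟩
    · rw [Nat.add_sub_cancel, ← mul_assoc, ← Complex.ofReal_mul, ← Real.exp_add]
      have e : ((Real.exp ((t.1 : ℝ) * lam + -((t.1 : ℝ) * c t)) : ℝ) : ℂ) * u n - u n =
          ((Real.exp ((t.1 : ℝ) * lam - (t.1 : ℝ) * c t) - 1 : ℝ) : ℂ) * u n := by
        rw [← sub_eq_add_neg]; push_cast; ring
      rw [e, norm_mul, Complex.norm_real, Real.norm_eq_abs]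
      have := Real.abs_exp_sub_one_le (habs.trans hτ)
      calc |Real.exp ((t.1 : ℝ) * lam - (t.1 : ℝ) * c t) - 1| * ‖u n‖ ≤ (2 * τ) * R :=
            mul_le_mul (by linarith) (hR n) (norm_nonneg _)
              (by linarith [abs_nonneg ((t.1 : ℝ) * lam - (t.1 : ℝ) * c t)])
        _ ≤ η := h1
    · have k3 : t.1 + N ≤ s.1 := by
        have : (t.1 : ℝ) + N ≤ s.1 := by linarith
        exact_mod_cast this
      rw [hu n (by omega), sub_zero, ← mul_assoc, ← Complex.ofReal_mul, ← Real.exp_add, norm_mul,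
        Complex.norm_real, Real.norm_eq_abs, abs_of_pos (Real.exp_pos _)]
      refine le_trans (mul_le_mul (Real.exp_le_exp.2 ?_) (hR _) (norm_nonneg _)
        (Real.exp_pos _).le) h2
      linarith [(abs_le.1 habs).2]
    · exfalso
      have k3 : s.1 + N ≤ t.1 := by
        have : (s.1 : ℝ) + N ≤ t.1 := by linarith
        exact_mod_cast this
      omega

end

/-- An eventually vanishing sequence as an element of `c0`. -/
noncomputable def mkC0 (x : ℕ → ℂ) (M : ℕ) (hx : ∀ n, M ≤ n → x n = 0) : C₀(ℕ, ℂ) :=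
  ⟨⟨x, continuous_of_discreteTopology⟩, by
    rw [cocompact_eq_atTop]
    exact tendsto_const_nhds.congr' (eventually_atTop.2 ⟨M, fun n hn => (hx n hn).symm⟩)⟩

lemma mkC0_apply (x : ℕ → ℂ) (M : ℕ) (hx : ∀ n, M ≤ n → x n = 0) (n : ℕ) :
    mkC0 x M hx n = x n := rfl

lemma C0_tendsto (x : C₀(ℕ, ℂ)) : Tendsto (fun n => x n) atTop (𝓝 0) := by
  have := zero_at_infty x
  rwa [cocompact_eq_atTop] at this

lemma C0_dist_le {x y : C₀(ℕ, ℂ)} {r : ℝ} (hr : 0 ≤ r) (h : ∀ n, ‖x n - y n‖ ≤ r) :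
    dist x y ≤ r := by
  rw [← ZeroAtInftyContinuousMap.dist_toBCF_eq_dist, BoundedContinuousFunction.dist_le hr]
  intro n
  rw [dist_eq_norm]
  exact h n

lemma C0_norm_le (x y : C₀(ℕ, ℂ)) (n : ℕ) : ‖x n - y n‖ ≤ dist x y := by
  rw [← ZeroAtInftyContinuousMap.dist_toBCF_eq_dist, ← dist_eq_norm]
  exact BoundedContinuousFunction.dist_coe_le_dist (f := x.toBCF) (g := y.toBCF) n

/-- Pairs whose orbits come `η`-close to `(u, v)` for every parameter of the dust. -/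
def good (a b h : ℝ) (u v : ℕ → ℂ) (η : ℝ) : Set (C₀(ℕ, ℂ) × C₀(ℕ, ℂ)) :=
  {z | ∀ w ∈ dust a b h, ∃ k : ℕ, ∀ n : ℕ,
    ‖((Real.exp ((k : ℝ) * w.1) : ℝ) : ℂ) * z.1 (n + k) - u n‖ ≤ η ∧
    ‖((Real.exp ((k : ℝ) * w.2) : ℝ) : ℂ) * z.2 (n + k) - v n‖ ≤ η}

lemma perturb {k M n : ℕ} {lam Λ η δ : ℝ} {x x' : ℕ → ℂ} {y : ℂ} (hk : k ≤ M) (h0 : 0 ≤ Λ)
    (hlam : lam ≤ Λ) (hδ : Real.exp (M * Λ) * δ ≤ η / 2)
    (h1 : ‖((Real.exp ((k : ℝ) * lam) : ℝ) : ℂ) * x (n + k) - y‖ ≤ η / 2)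
    (h2 : ‖x' (n + k) - x (n + k)‖ ≤ δ) :
    ‖((Real.exp ((k : ℝ) * lam) : ℝ) : ℂ) * x' (n + k) - y‖ ≤ η := by
  have e : ((Real.exp ((k : ℝ) * lam) : ℝ) : ℂ) * x' (n + k) - y =
      (((Real.exp ((k : ℝ) * lam) : ℝ) : ℂ) * x (n + k) - y) +
        ((Real.exp ((k : ℝ) * lam) : ℝ) : ℂ) * (x' (n + k) - x (n + k)) := by ring
  rw [e]
  refine (norm_add_le _ _).trans ?_
  rw [norm_mul, Complex.norm_real, Real.norm_eq_abs, abs_of_pos (Real.exp_pos _)]
  have hkM : (k : ℝ) ≤ M := by exact_mod_cast hk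
  have h3 : (k : ℝ) * lam ≤ M * Λ :=
    (mul_le_mul_of_nonneg_left hlam (Nat.cast_nonneg _)).trans
      (mul_le_mul_of_nonneg_right hkM h0)
  have h4 : Real.exp ((k : ℝ) * lam) * ‖x' (n + k) - x (n + k)‖ ≤ Real.exp (M * Λ) * δ :=
    mul_le_mul (Real.exp_le_exp.2 h3) h2 (norm_nonneg _) (Real.exp_pos _).le
  linarith

lemma exists_exp_neg_le {R ρ : ℝ} (hR : 0 ≤ R) (hρ : 0 < ρ) :
    ∃ D : ℝ, ∀ D', D ≤ D' → Real.exp (-D') * R ≤ ρ := by
  refine ⟨R / ρ, fun D' hD => ?_⟩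
  have h1 : D' + 1 ≤ Real.exp D' := Real.add_one_le_exp _
  rw [div_le_iff₀ hρ] at hD
  rw [Real.exp_neg, inv_mul_le_iff₀ (Real.exp_pos _)]
  nlinarith

theorem dense_good {a b h : ℝ} (ha : 0 < a) (hb : 0 < b) (hh : 0 < h) {u v : ℕ → ℂ} {N : ℕ}
    (hu : ∀ n, N ≤ n → u n = 0) (hv : ∀ n, N ≤ n → v n = 0) {η : ℝ} (hη : 0 < η) :
    Dense (interior (good a b h u v η)) := by
  classical
  obtain ⟨R, hR0, hRu, hRv⟩ : ∃ R : ℝ, 0 ≤ R ∧ (∀ n, ‖u n‖ ≤ R) ∧ ∀ n, ‖v n‖ ≤ R := by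
    refine ⟨∑ n ∈ Finset.range N, (‖u n‖ + ‖v n‖), by positivity, fun n => ?_, fun n => ?_⟩
    · by_cases hn : n < N
      · have := Finset.single_le_sum (f := fun n => ‖u n‖ + ‖v n‖)
          (fun i _ => by positivity) (Finset.mem_range.2 hn)
        linarith [norm_nonneg (v n)]
      · rw [hu n (by omega), norm_zero]; positivity
    · by_cases hn : n < N
      · have := Finset.single_le_sum (f := fun n => ‖u n‖ + ‖v n‖)
          (fun i _ => by positivity) (Finset.mem_range.2 hn)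
        linarith [norm_nonneg (u n)]
      · rw [hv n (by omega), norm_zero]; positivity
  set τ : ℝ := min 1 (η / (4 * (R + 1))) with hτ
  have hτ0 : 0 < τ := lt_min one_pos (by positivity)
  have hτ1 : τ ≤ 1 := min_le_left _ _
  have hτ2 : 2 * τ * R ≤ η / 2 := by
    have : τ ≤ η / (4 * (R + 1)) := min_le_right _ _
    rw [le_div_iff₀ (by positivity)] at this
    nlinarith
  obtain ⟨D, hD⟩ := exists_exp_neg_le hR0 (half_pos hη)
  set G : ℝ := max (N : ℝ) (D + τ) with hG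
  have hGN : (N : ℝ) ≤ G := le_max_left _ _
  have hG0 : 0 ≤ G := (Nat.cast_nonneg _).trans hGN
  have hG2 : Real.exp (τ - G) * R ≤ η / 2 := by
    have := hD (G - τ) (by linarith [le_max_right (N : ℝ) (D + τ)])
    rwa [neg_sub] at this
  rw [Metric.dense_iff]
  rintro ⟨x0, y0⟩ ρ hρ
  obtain ⟨E, hE⟩ := exists_exp_neg_le hR0 (show 0 < ρ / 4 by positivity)
  set m : ℝ := min a b with hm
  have hm0 : 0 < m := lt_min ha hb
  have hma : m ≤ a := min_le_left _ _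
  have hmb : m ≤ b := min_le_right _ _
  obtain ⟨n0, hn0x, hn0y, hn0E⟩ : ∃ n0 : ℕ, (∀ n, n0 ≤ n → ‖x0 n‖ ≤ ρ / 4) ∧
      (∀ n, n0 ≤ n → ‖y0 n‖ ≤ ρ / 4) ∧ E ≤ n0 * m := by
    have e1 := (C0_tendsto x0).norm.eventually
      (ge_mem_nhds (show ‖(0 : ℂ)‖ < ρ / 4 by simpa using hρ))
    have e2 := (C0_tendsto y0).norm.eventually
      (ge_mem_nhds (show ‖(0 : ℂ)‖ < ρ / 4 by simpa using hρ))
    obtain ⟨n1, h1⟩ := eventually_atTop.1 (e1.and e2)
    obtain ⟨n2, h2⟩ := exists_nat_ge (E / m)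
    refine ⟨max n1 n2, fun n hn => (h1 n (le_trans (le_max_left _ _) hn)).1,
      fun n hn => (h1 n (le_trans (le_max_left _ _) hn)).2, ?_⟩
    rw [div_le_iff₀ hm0] at h2
    have : (n2 : ℝ) ≤ ((max n1 n2 : ℕ) : ℝ) := by exact_mod_cast le_max_right _ _
    nlinarith
  obtain ⟨n', -, T, hT, hTe, hTc⟩ := exists_cov (G := G) hG0 hτ0 hm0 hh a b hma hmb (n0 : ℝ)
  obtain ⟨M, hM⟩ := exists_nat_ge n'
  have hTM : ∀ t ∈ T, t.1 ≤ M := fun t ht => by
    have h1 := (hTe t ht).2.1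
    simp only [st] at h1
    have : (t.1 : ℝ) ≤ M := by linarith
    exact_mod_cast this
  have hT0 : ∀ t ∈ T, n0 ≤ t.1 := fun t ht => by
    have h1 := (hTe t ht).1.1
    simp only [st] at h1
    exact_mod_cast h1
  have hn0 : (0 : ℝ) ≤ n0 := Nat.cast_nonneg _
  have hT1 : ∀ t ∈ T, (n0 : ℝ) * m ≤ (t.1 : ℝ) * t.2.1 := fun t ht => by
    have h1 := (hTe t ht).1.2.1
    simp only [st] at h1
    exact (mul_le_mul_of_nonneg_left hma hn0).trans h1
  have hT2 : ∀ t ∈ T, (n0 : ℝ) * m ≤ (t.1 : ℝ) * t.2.2 := fun t ht => by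
    have h1 := (hTe t ht).1.2.2
    simp only [st] at h1
    exact (mul_le_mul_of_nonneg_left hmb hn0).trans h1
  set x : ℕ → ℂ := fun n => if n < n0 then x0 n else blk T (fun t => t.2.1) u N n with hx
  set y : ℕ → ℂ := fun n => if n < n0 then y0 n else blk T (fun t => t.2.2) v N n with hy
  have hxz : ∀ n, n0 + (M + N) ≤ n → x n = 0 := fun n hn => by
    simp only [hx]
    rw [if_neg (by omega)]
    exact blk_eq_zero hTM (by omega)
  have hyz : ∀ n, n0 + (M + N) ≤ n → y n = 0 := fun n hn => by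
    simp only [hy]
    rw [if_neg (by omega)]
    exact blk_eq_zero hTM (by omega)
  refine ⟨(mkC0 x _ hxz, mkC0 y _ hyz), ?_, ?_⟩
  · rw [Metric.mem_ball, Prod.dist_eq, max_lt_iff]
    constructor
    · refine lt_of_le_of_lt (C0_dist_le (r := ρ / 2) (by positivity) fun n => ?_) (by linarith)
      rw [mkC0_apply]
      simp only [hx]
      split_ifs with hn
      · simp; positivity
      · refine (norm_sub_le _ _).trans ?_
        have h1 := blk_norm_le (N := N) hRu hT1 n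
        have h2 := hE _ hn0E
        have h3 := hn0x n (by omega)
        linarith
    · refine lt_of_le_of_lt (C0_dist_le (r := ρ / 2) (by positivity) fun n => ?_) (by linarith)
      rw [mkC0_apply]
      simp only [hy]
      split_ifs with hn
      · simp; positivity
      · refine (norm_sub_le _ _).trans ?_
        have h1 := blk_norm_le (N := N) hRv hT2 n
        have h2 := hE _ hn0E
        have h3 := hn0y n (by omega)
        linarith
  · set Λ : ℝ := a + b + h with hΛ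
    set δ : ℝ := η / 2 / Real.exp (M * Λ) with hδ
    have hδ0 : 0 < δ := by positivity
    have hδ1 : Real.exp (M * Λ) * δ ≤ η / 2 := by
      rw [hδ, mul_div_cancel₀ _ (Real.exp_pos _).ne']
    rw [mem_interior_iff_mem_nhds, Metric.mem_nhds_iff]
    refine ⟨δ, hδ0, ?_⟩
    rintro ⟨x', y'⟩ hz w hw
    rw [Metric.mem_ball, Prod.dist_eq, max_lt_iff] at hz
    obtain ⟨t, ht, hw1, hw2⟩ := hTc w hw
    obtain ⟨hc1, hc2⟩ := dust_close hh.le hw
    refine ⟨t.1, fun n => ⟨?_, ?_⟩⟩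
    · refine perturb (x := x) (hTM t ht) (by positivity : 0 ≤ Λ)
        (by linarith [(abs_le.1 hc1).2]) hδ1 ?_ ((C0_norm_le x' (mkC0 x _ hxz) _).trans hz.1.le)
      have e : x (n + t.1) = blk T (fun t => t.2.1) u N (n + t.1) := by
        simp only [hx]
        rw [if_neg (by have := hT0 t ht; omega)]
      rw [e]
      refine blk_approx (c := fun t => t.2.1) hGN (fun s hs s' hs' => ?_) hRu hu hτ1 hτ2 hG2 ht
        hw1 n
      rcases hT s hs s' hs' with h | h | h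
      · exact Or.inl h
      · exact Or.inr (Or.inl ⟨h.1, h.2.1⟩)
      · exact Or.inr (Or.inr ⟨h.1, h.2.1⟩)
    · refine perturb (x := y) (hTM t ht) (by positivity : 0 ≤ Λ)
        (by linarith [(abs_le.1 hc2).2]) hδ1 ?_ ((C0_norm_le y' (mkC0 y _ hyz) _).trans hz.2.le)
      have e : y (n + t.1) = blk T (fun t => t.2.2) v N (n + t.1) := by
        simp only [hy]
        rw [if_neg (by have := hT0 t ht; omega)]
      rw [e]
      refine blk_approx (c := fun t => t.2.2) hGN (fun s hs s' hs' => ?_) hRv hv hτ1 hτ2 hG2 ht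
        hw2 n
      rcases hT s hs s' hs' with h | h | h
      · exact Or.inl h
      · exact Or.inr (Or.inl ⟨h.1, h.2.2⟩)
      · exact Or.inr (Or.inr ⟨h.1, h.2.2⟩)

/-- The countable dense family of finitely supported targets. -/
noncomputable def target (N i : ℕ) (n : ℕ) : ℂ :=
  if h : n < N then TopologicalSpace.denseSeq (Fin N → ℂ) i ⟨n, h⟩ else 0

lemma target_zero (N i n : ℕ) (hn : N ≤ n) : target N i n = 0 := by
  unfold target
  rw [dif_neg (by omega)]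

lemma exists_target {u : ℕ → ℂ} {N : ℕ} {η : ℝ} (hη : 0 < η) (hu : ∀ n, N ≤ n → ‖u n‖ ≤ η) :
    ∃ i, ∀ n, ‖target N i n - u n‖ ≤ η := by
  obtain ⟨i, hi⟩ := (TopologicalSpace.denseRange_denseSeq (Fin N → ℂ)).exists_dist_lt
    (fun j : Fin N => u j) hη
  refine ⟨i, fun n => ?_⟩
  unfold target
  split_ifs with h
  · rw [← dist_eq_norm, dist_comm]
    exact (dist_le_pi_dist (fun j : Fin N => u j) _ ⟨n, h⟩).trans hi.le
  · simpa using hu n (by omega)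

theorem common {a b h : ℝ} (ha : 0 < a) (hb : 0 < b) (hh : 0 < h) :
    ∃ x y : ℕ → ℂ, Tendsto x atTop (𝓝 0) ∧ Tendsto y atTop (𝓝 0) ∧
      ∀ w ∈ dust a b h, ∀ u v : ℕ → ℂ, Tendsto u atTop (𝓝 0) → Tendsto v atTop (𝓝 0) →
        ∀ η : ℝ, 0 < η → ∃ k : ℕ, ∀ n : ℕ,
          ‖((Real.exp ((k : ℝ) * w.1) : ℝ) : ℂ) * x (n + k) - u n‖ < η ∧
          ‖((Real.exp ((k : ℝ) * w.2) : ℝ) : ℂ) * y (n + k) - v n‖ < η := by
  have hd : Dense (⋂ p : ℕ × ℕ × ℕ × ℕ, interior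
      (good a b h (target p.1 p.2.1) (target p.1 p.2.2.1) (1 / ((p.2.2.2 : ℝ) + 1)))) :=
    dense_iInter_of_isOpen (fun _ => isOpen_interior) fun p =>
      dense_good ha hb hh (target_zero _ _) (target_zero _ _) Nat.one_div_pos_of_nat
  obtain ⟨⟨x, y⟩, hz⟩ := hd.nonempty
  refine ⟨x, y, C0_tendsto x, C0_tendsto y, fun w hw u v hu hv η hη => ?_⟩
  have e1 := hu.norm.eventually (ge_mem_nhds (show ‖(0 : ℂ)‖ < η / 2 by simpa using hη))
  have e2 := hv.norm.eventually (ge_mem_nhds (show ‖(0 : ℂ)‖ < η / 2 by simpa using hη))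
  obtain ⟨N, hN⟩ := eventually_atTop.1 (e1.and e2)
  obtain ⟨i, hi⟩ := exists_target (half_pos hη) fun n hn => (hN n hn).1
  obtain ⟨j, hj⟩ := exists_target (half_pos hη) fun n hn => (hN n hn).2
  obtain ⟨l, hl⟩ := exists_nat_one_div_lt (half_pos hη)
  obtain ⟨k, hk⟩ := interior_subset (Set.mem_iInter.1 hz (N, i, j, l)) w hw
  refine ⟨k, fun n => ⟨?_, ?_⟩⟩
  · have h1 := (hk n).1
    have h2 := hi n
    have h3 := norm_sub_le_norm_sub_add_norm_sub
      (((Real.exp ((k : ℝ) * w.1) : ℝ) : ℂ) * x (n + k)) (target N i n) (u n)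
    simp only at h1
    linarith
  · have h1 := (hk n).2
    have h2 := hj n
    have h3 := norm_sub_le_norm_sub_add_norm_sub
      (((Real.exp ((k : ℝ) * w.2) : ℝ) : ℂ) * y (n + k)) (target N j n) (v n)
    simp only at h1
    linarith

end Pool.Agent.P.MP_1f345d_an
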